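import Mathlib

/-! Over every field that is not algebraically closed there is a tridiagonal pair with two
non-proportional nonzero symmetric invariant bilinear forms. -/

namespace Pool.Agent.Results.MP_8ac8bf_al.FormNotUnique

universe u v

/-- `A` is diagonalizable and its eigenspaces `V_0, ..., V_d` can be ordered so that
`B V_i ⊆ V_{i-1} + V_i + V_{i+1}` for all `i`. -/
def ActsTridiagonally {K : Type u} [Field K] {V : Type v} [AddCommGroup V] [Module K V]
    (A B : Module.End K V) : Prop :=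
  (⨆ μ : K, A.eigenspace μ) = ⊤ ∧
    ∃ (d : ℕ) (θ : Fin (d + 1) → K), Function.Injective θ ∧
      (∀ μ : K, A.HasEigenvalue μ ↔ ∃ i, θ i = μ) ∧
      ∀ (i : Fin (d + 1)), ∀ x ∈ A.eigenspace (θ i),
        B x ∈ ⨆ j : {j : Fin (d + 1) // (j : ℕ) ≤ i + 1 ∧ (i : ℕ) ≤ j + 1}, A.eigenspace (θ j)

/-- `A, B` is a tridiagonal pair on `V`. -/
def IsTridiagonalPair {K : Type u} [Field K] {V : Type v} [AddCommGroup V] [Module K V]
    (A B : Module.End K V) : Prop :=
  ActsTridiagonally A B ∧ ActsTridiagonally B A ∧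
    ∀ W : Submodule K V, (∀ w ∈ W, A w ∈ W) → (∀ w ∈ W, B w ∈ W) → W = ⊥ ∨ W = ⊤

/-- The bilinear form `F` is symmetric and `(A, B)`-invariant. -/
def IsSymmInvariant {K : Type u} [Field K] {V : Type v} [AddCommGroup V] [Module K V]
    (A B : Module.End K V) (F : LinearMap.BilinForm K V) : Prop :=
  (∀ x y, F x y = F y x) ∧ (∀ x y, F (A x) y = F x (A y)) ∧ ∀ x y, F (B x) y = F x (B y)

section idem

variable {K : Type u} [Field K] {V : Type v} [AddCommGroup V] [Module K V]

lemma acts_of_idem (E B : Module.End K V) (h : ∀ x, E (E x) = E x) (x0 x1 : V)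
    (h0 : x0 ≠ 0) (h1 : x1 ≠ 0) (e0 : E x0 = 0) (e1 : E x1 = x1) : ActsTridiagonally E B := by
  have hsup : ∀ x : V, ∃ a ∈ E.eigenspace 0, ∃ b ∈ E.eigenspace 1, a + b = x := by
    intro x
    refine ⟨x - E x, ?_, E x, ?_, by abel⟩
    · rw [Module.End.mem_eigenspace_iff, map_sub, h, sub_self, zero_smul]
    · rw [Module.End.mem_eigenspace_iff, h, one_smul]
  constructor
  · rw [eq_top_iff]
    intro x _
    obtain ⟨a, ha, b, hb, rfl⟩ := hsup x
    exact add_mem (Submodule.mem_iSup_of_mem 0 ha) (Submodule.mem_iSup_of_mem 1 hb)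
  · refine ⟨1, ![0, 1], ?_, ?_, ?_⟩
    · intro i j hij
      fin_cases i <;> fin_cases j <;> simp_all
    · intro μ
      constructor
      · intro hμ
        obtain ⟨v, hv⟩ := hμ.exists_hasEigenvector
        have hv1 : E v = μ • v := hv.apply_eq_smul
        have hv2 := h v
        rw [hv1, map_smul, hv1, smul_smul, ← sub_eq_zero, ← sub_smul] at hv2
        rcases smul_eq_zero.mp hv2 with h3 | h3
        · have : μ * (μ - 1) = 0 := by linear_combination h3
          rcases mul_eq_zero.mp this with h4 | h4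
          · exact ⟨0, by simp [h4]⟩
          · exact ⟨1, by simp [sub_eq_zero.mp h4]⟩
        · exact absurd h3 hv.2
      · rintro ⟨i, rfl⟩
        fin_cases i
        · exact Module.End.hasEigenvalue_of_hasEigenvector (x := x0)
            ⟨by simp [e0], h0⟩
        · exact Module.End.hasEigenvalue_of_hasEigenvector (x := x1)
            ⟨by simp [e1], h1⟩
    · intro i x _
      obtain ⟨a, ha, b, hb, hab⟩ := hsup (B x)
      rw [← hab]
      refine add_mem (Submodule.mem_iSup_of_mem ⟨0, ?_, ?_⟩ ha)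
        (Submodule.mem_iSup_of_mem ⟨1, ?_, ?_⟩ hb)
      all_goals fin_cases i <;> simp

end idem

section construction

variable {K : Type u} [Field K] {L : Type u} [Field L] [Algebra K L]

/-- `(x, y) ↦ (x, 0)` -/
def mapA (K : Type u) [Field K] (L : Type u) [Field L] [Algebra K L] : Module.End K (L × L) where
  toFun v := (v.1, 0)
  map_add' v w := by simp
  map_smul' c v := by simp

/-- `(x, y) ↦ (p x + y, p (1 - p) x + (1 - p) y)` -/
def mapB (K : Type u) [Field K] {L : Type u} [Field L] [Algebra K L] (p : L) :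
    Module.End K (L × L) where
  toFun v := (p * v.1 + v.2, p * (1 - p) * v.1 + (1 - p) * v.2)
  map_add' v w := by ext <;> simp <;> ring
  map_smul' c v := by ext <;> simp [Algebra.smul_def] <;> ring

/-- `((x, y), (x', y')) ↦ f (p (1 - p) x x' + y y')` -/
def form (p : L) (f : L →ₗ[K] K) : LinearMap.BilinForm K (L × L) :=
  LinearMap.mk₂ K (fun v w => f (p * (1 - p) * v.1 * w.1 + v.2 * w.2))
    (fun v v' w => by rw [← map_add]; congr 1; simp; ring)
    (fun c v w => by rw [← map_smul]; congr 1; simp [Algebra.smul_def]; ring)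
    (fun v w w' => by rw [← map_add]; congr 1; simp; ring)
    (fun c v w => by rw [← map_smul]; congr 1; simp [Algebra.smul_def]; ring)

lemma form_inv (p : L) (f : L →ₗ[K] K) : IsSymmInvariant (mapA K L) (mapB K p) (form p f) := by
  refine ⟨fun x y => ?_, fun x y => ?_, fun x y => ?_⟩
  · simp only [form, LinearMap.mk₂_apply]; congr 1; ring
  · simp only [form, LinearMap.mk₂_apply, mapA, LinearMap.coe_mk, AddHom.coe_mk]; congr 1; ring
  · simp only [form, LinearMap.mk₂_apply, mapB, LinearMap.coe_mk, AddHom.coe_mk]; congr 1; ring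

lemma stable_sub (p : L) (hp : Algebra.adjoin K {p} = ⊤) (U : Submodule K L)
    (h : ∀ x ∈ U, p * x ∈ U) (hU : U ≠ ⊥) : U = ⊤ := by
  have key : ∀ z : L, ∀ x ∈ U, z * x ∈ U := by
    intro z
    have hz : z ∈ Algebra.adjoin K {p} := by rw [hp]; trivial
    induction hz using Algebra.adjoin_induction with
    | mem a ha =>
      rw [Set.mem_singleton_iff] at ha
      rw [ha]; exact h
    | algebraMap r =>
      intro x hx
      rw [← Algebra.smul_def]
      exact U.smul_mem r hx
    | add a b _ _ ha hb =>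
      intro x hx
      rw [add_mul]
      exact add_mem (ha x hx) (hb x hx)
    | mul a b _ _ ha hb =>
      intro x hx
      rw [mul_assoc]
      exact ha _ (hb x hx)
  obtain ⟨x, hx, hx0⟩ := Submodule.exists_mem_ne_zero_of_ne_bot hU
  rw [eq_top_iff]
  intro z _
  have := key (z * x⁻¹) x hx
  rwa [mul_assoc, inv_mul_cancel₀ hx0, mul_one] at this

lemma irred (p : L) (hp : Algebra.adjoin K {p} = ⊤) (hp0 : p ≠ 0) (hp1 : p ≠ 1)
    (W : Submodule K (L × L)) (hA : ∀ w ∈ W, mapA K L w ∈ W) (hB : ∀ w ∈ W, mapB K p w ∈ W) :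
    W = ⊥ ∨ W = ⊤ := by
  have hA' : ∀ w ∈ W, ((w.1, 0) : L × L) ∈ W := hA
  have hB' : ∀ w ∈ W, ((p * w.1 + w.2, p * (1 - p) * w.1 + (1 - p) * w.2) : L × L) ∈ W := hB
  have hA2 : ∀ w ∈ W, ((0, w.2) : L × L) ∈ W := by
    intro w hw
    have := sub_mem hw (hA' w hw)
    have e : w - ((w.1, 0) : L × L) = (0, w.2) := by ext <;> simp
    rwa [e] at this
  have hp2 : p * (1 - p) ≠ 0 := mul_ne_zero hp0 (sub_ne_zero.mpr (Ne.symm hp1))
  let W0 : Submodule K L := W.comap (LinearMap.inl K L L)
  let W1 : Submodule K L := W.comap (LinearMap.inr K L L)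
  have m0 : ∀ x : L, x ∈ W0 ↔ ((x, 0) : L × L) ∈ W := fun x => Iff.rfl
  have m1 : ∀ x : L, x ∈ W1 ↔ ((0, x) : L × L) ∈ W := fun x => Iff.rfl
  have s0 : ∀ x ∈ W0, p * x ∈ W0 := by
    intro x hx
    have := hA' _ (hB' _ ((m0 x).mp hx))
    rw [m0]
    simpa using this
  have s01 : ∀ x ∈ W0, p * (1 - p) * x ∈ W1 := by
    intro x hx
    have := hA2 _ (hB' _ ((m0 x).mp hx))
    rw [m1]
    simpa using this
  have s10 : ∀ x ∈ W1, x ∈ W0 := by
    intro x hx
    have := hA' _ (hB' _ ((m1 x).mp hx))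
    rw [m0]
    simpa using this
  by_cases h0 : W0 = ⊥
  · left
    rw [eq_bot_iff]
    intro w hw
    have e0 : w.1 ∈ W0 := hA' w hw
    have e1 : w.2 ∈ W0 := s10 _ (hA2 w hw)
    rw [h0, Submodule.mem_bot] at e0 e1
    rw [Submodule.mem_bot]
    exact Prod.ext e0 e1
  · right
    have h0' := stable_sub p hp W0 s0 h0
    rw [eq_top_iff]
    intro w _
    have e0 : w.1 ∈ W0 := by rw [h0']; trivial
    have e1 : w.2 ∈ W1 := by
      have := s01 ((p * (1 - p))⁻¹ * w.2) (by rw [h0']; trivial)
      rwa [← mul_assoc, mul_inv_cancel₀ hp2, one_mul] at this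
    have := add_mem ((m0 _).mp e0) ((m1 _).mp e1)
    simpa using this

end construction

/-- Over every field that is not algebraically closed there is a tridiagonal pair, on a finite
dimensional nonzero space, which has two nonzero symmetric invariant bilinear forms that are not
scalar multiples of each other. -/
theorem result (K : Type u) [Field K] (hK : ¬ IsAlgClosed K) :
    ∃ (V : Type u) (_ : AddCommGroup V) (_ : Module K V) (A B : Module.End K V),
      FiniteDimensional K V ∧ Nontrivial V ∧ IsTridiagonalPair A B ∧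
        ∃ F G : LinearMap.BilinForm K V, F ≠ 0 ∧ G ≠ 0 ∧ IsSymmInvariant A B F ∧
          IsSymmInvariant A B G ∧ (∀ c : K, G ≠ c • F) ∧ ∀ c : K, F ≠ c • G := by
  have hex : ∃ f : Polynomial K, f.Monic ∧ Irreducible f ∧ ∀ x, f.eval x ≠ 0 := by
    by_contra hcon
    push Not at hcon
    exact hK (IsAlgClosed.of_exists_root K hcon)
  obtain ⟨f, hfm, hfi, hroot⟩ := hex
  have : Fact (Irreducible f) := ⟨hfi⟩
  have : FiniteDimensional K (AdjoinRoot f) := (AdjoinRoot.powerBasis hfi.ne_zero).finite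
  set p : AdjoinRoot f := AdjoinRoot.root f with hpdef
  have hp : Algebra.adjoin K {p} = ⊤ := AdjoinRoot.adjoinRoot_eq_top
  have hpK : ∀ c : K, p ≠ algebraMap K (AdjoinRoot f) c := by
    intro c hc
    have h1 : Polynomial.aeval p f = 0 := by
      rw [hpdef, AdjoinRoot.aeval_eq, AdjoinRoot.mk_self]
    rw [hc, Polynomial.aeval_algebraMap_apply] at h1
    have h2 := (map_eq_zero (algebraMap K (AdjoinRoot f))).mp h1
    exact hroot c (by simpa [Polynomial.aeval_def] using h2)
  have hp0 : p ≠ 0 := by simpa using hpK 0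
  have hp1 : p ≠ 1 := by simpa using hpK 1
  have hp2 : p * (1 - p) ≠ 0 := mul_ne_zero hp0 (sub_ne_zero.mpr (Ne.symm hp1))
  obtain ⟨g, hg⟩ : ∃ g : AdjoinRoot f →ₗ[K] K, g 1 ≠ 0 := by
    by_contra hcon
    push Not at hcon
    exact one_ne_zero ((Module.forall_dual_apply_eq_zero_iff K (1 : AdjoinRoot f)).mp hcon)
  let g' : AdjoinRoot f →ₗ[K] K := g ∘ₗ LinearMap.mulLeft K p
  have hg' : ∀ x, g' x = g (p * x) := fun x => rfl
  have hform : ∀ (h : AdjoinRoot f →ₗ[K] K) (x : AdjoinRoot f),
      form p h ((0, x) : AdjoinRoot f × AdjoinRoot f) (0, 1) = h x := by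
    intro h x
    simp [form]
  have hsurj : ∀ c : K, ∀ z : AdjoinRoot f, ∃ x, (p - algebraMap K (AdjoinRoot f) c) * x = z := by
    intro c z
    have hne : p - algebraMap K (AdjoinRoot f) c ≠ 0 := sub_ne_zero.mpr (hpK c)
    exact ⟨(p - algebraMap K (AdjoinRoot f) c)⁻¹ * z, by rw [← mul_assoc, mul_inv_cancel₀ hne,
      one_mul]⟩
  have hF : form p g ≠ 0 := by
    intro h0
    have := hform g 1
    rw [h0] at this
    exact hg (by simpa using this.symm)
  have hGF : ∀ c : K, form p g' ≠ c • form p g := by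
    intro c hc
    obtain ⟨x, hx⟩ := hsurj c 1
    have h1 := hform g' x
    rw [hc] at h1
    have h2 : c • g x = g (p * x) := by
      rw [← hform g x, ← hg' x, ← h1]
      rfl
    apply hg
    rw [← hx, sub_mul, map_sub, ← h2, ← Algebra.smul_def, map_smul, sub_self]
  have hG : form p g' ≠ 0 := by
    have := hGF 0
    rwa [zero_smul] at this
  refine ⟨AdjoinRoot f × AdjoinRoot f, inferInstance, inferInstance, mapA K (AdjoinRoot f),
    mapB K p, inferInstance, inferInstance, ⟨?_, ?_, ?_⟩, form p g, form p g', hF, hG,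
    form_inv p g, form_inv p g', hGF, ?_⟩
  · exact acts_of_idem _ _ (fun x => rfl) (0, 1) (1, 0) (by simp) (by simp) (by simp [mapA])
      (by simp [mapA])
  · refine acts_of_idem _ _ (fun x => ?_) (1, -p) (1, 1 - p) (by simp) (by simp) ?_ ?_
    · ext <;> simp [mapB] <;> ring
    · ext <;> simp [mapB] <;> ring
    · ext
      · simp [mapB]
      · simp [mapB]; ring
  · exact irred p hp hp0 hp1
  · intro c hc
    by_cases hc0 : c = 0
    · rw [hc0, zero_smul] at hc
      exact hF hc
    · apply hGF c⁻¹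
      rw [hc, smul_smul, inv_mul_cancel₀ hc0, one_smul]

end Pool.Agent.Results.MP_8ac8bf_al.FormNotUnique
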